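import Pool.Agent.H19.Zf

/-! A connected cubic graph on 36 vertices with zero forcing number at least `α + 2`. -/

set_option maxHeartbeats 400000

namespace Pool.Agent.Results.MP_48c3bc_co.Cubic

open Finset

/-- The closure of `S` under the colour-change rule. -/
inductive Forced {V : Type} (G : SimpleGraph V) (S : Finset V) : V → Prop
  | base (v : V) : v ∈ S → Forced G S v
  | step (u w : V) : Forced G S u → G.Adj u w → (∀ x, G.Adj u x → x ≠ w → Forced G S x) →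
      Forced G S w

/-- The zero forcing number. -/
noncomputable def zf {V : Type} (G : SimpleGraph V) : ℕ :=
  sInf {k | ∃ S : Finset V, S.card = k ∧ ∀ v, Forced G S v}

open Pool.Agent.H19.Zf

lemma hit {S : Finset W} (hS : ∀ v, Forced G S v) {a : W} {F : List W} (hF : Fort (a :: F)) :
    ∃ v ∈ a :: F, v ∈ S := by
  by_contra h
  push Not at h
  have : ∀ v, Forced G S v → v ∉ a :: F := by
    intro v hv
    induction hv with
    | base v hv => exact fun h' => h v h' hv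
    | step u w _ huw _ ih1 ih2 =>
      intro hw
      obtain ⟨x, hx, h1, h2⟩ := (hF u).resolve_left ih1 w hw huw
      exact ih2 x h2 h1 hx
  exact this a (hS a) (List.mem_cons_self)

lemma gad (s a b c d : Prop) [Decidable s] [Decidable a] [Decidable b] [Decidable c] [Decidable d]
    (h1 : a ∨ b) (h2 : c ∨ d) :
    2 ≤ (if s then 1 else 0) + (if a then 1 else 0) + (if b then 1 else 0) + (if c then 1 else 0)
      + (if d then 1 else 0) ∧
    (3 ≤ (if s then 1 else 0) + (if a then 1 else 0) + (if b then 1 else 0) + (if c then 1 else 0)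
      + (if d then 1 else 0) ∨ (¬ s ∧ (¬ a ∨ ¬ b) ∧ (¬ c ∨ ¬ d))) := by
  by_cases s <;> by_cases a <;> by_cases b <;> by_cases c <;> by_cases d <;> simp_all

lemma branch {S : Finset W} (hS : ∀ v, Forced G S v) (i : Fin 3) :
    5 ≤ ∑ k : Fin 12, (if (i, k) ∈ S then 1 else 0) ∧
      (6 ≤ ∑ k : Fin 12, (if (i, k) ∈ S then 1 else 0) ∨
        ((i, 0) ∉ S ∧ ∃ e x y, ∀ v ∈ pc i e x y, v ∉ S)) := by
  obtain ⟨a1, a2, a3, a4⟩ := f1 i
  have b1 := hit hS a1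
  have b2 := hit hS a2
  have b3 := hit hS a3
  have b4 := hit hS a4
  simp only [List.mem_cons, List.not_mem_nil, or_false, exists_eq_or_imp, exists_eq_left] at b1 b2 b3 b4
  have e : ∀ f : Fin 12 → ℕ, ∑ k, f k = f 0 + (f 1 + (f 2 + (f 3 + (f 4 + (f 5 + (f 6 + (f 7 + (f 8 +
      (f 9 + (f 10 + (f 11 + 0))))))))))) := fun f => by
    simp only [Fin.sum_univ_succ, Fin.sum_univ_zero]; rfl
  rw [e]
  obtain ⟨c1, c2⟩ := gad ((i, 2) ∈ S) _ _ _ _ b1 b2
  obtain ⟨c3, c4⟩ := gad ((i, 7) ∈ S) _ _ _ _ b3 b4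
  have p0 : ((i, 2) ∉ S ∧ ((i, 3) ∉ S ∨ (i, 4) ∉ S) ∧ ((i, 5) ∉ S ∨ (i, 6) ∉ S)) →
      ∃ x y, ∀ v ∈ pc i 0 x y, v ∉ S := by
    rintro ⟨h1, h2 | h2, h3 | h3⟩
    exacts [⟨0, 0, by simp only [pc, List.forall_mem_cons]; exact ⟨h1, h2, h3, by simp⟩⟩,
      ⟨0, 1, by simp only [pc, List.forall_mem_cons]; exact ⟨h1, h2, h3, by simp⟩⟩,
      ⟨1, 0, by simp only [pc, List.forall_mem_cons]; exact ⟨h1, h2, h3, by simp⟩⟩,
      ⟨1, 1, by simp only [pc, List.forall_mem_cons]; exact ⟨h1, h2, h3, by simp⟩⟩]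
  have p1 : ((i, 7) ∉ S ∧ ((i, 8) ∉ S ∨ (i, 9) ∉ S) ∧ ((i, 10) ∉ S ∨ (i, 11) ∉ S)) →
      ∃ x y, ∀ v ∈ pc i 1 x y, v ∉ S := by
    rintro ⟨h1, h2 | h2, h3 | h3⟩
    exacts [⟨0, 0, by simp only [pc, List.forall_mem_cons]; exact ⟨h1, h2, h3, by simp⟩⟩,
      ⟨0, 1, by simp only [pc, List.forall_mem_cons]; exact ⟨h1, h2, h3, by simp⟩⟩,
      ⟨1, 0, by simp only [pc, List.forall_mem_cons]; exact ⟨h1, h2, h3, by simp⟩⟩,
      ⟨1, 1, by simp only [pc, List.forall_mem_cons]; exact ⟨h1, h2, h3, by simp⟩⟩]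
  rcases c2 with c2 | c2 <;> rcases c4 with c4 | c4
  · exact ⟨by omega, Or.inl (by omega)⟩
  · by_cases h0 : (i, 0) ∈ S
    · rw [if_pos h0]; exact ⟨by omega, Or.inl (by omega)⟩
    · exact ⟨by omega, Or.inr ⟨h0, 1, p1 c4⟩⟩
  · by_cases h0 : (i, 0) ∈ S
    · rw [if_pos h0]; exact ⟨by omega, Or.inl (by omega)⟩
    · exact ⟨by omega, Or.inr ⟨h0, 0, p0 c2⟩⟩
  · obtain ⟨x, y, h1⟩ := p0 c2
    obtain ⟨x', y', h2⟩ := p1 c4
    obtain ⟨v, hv, hv'⟩ := hit hS (f2 i x y x' y')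
    have hv2 : v ∈ pc i 0 x y ++ pc i 1 x' y' := hv
    exact absurd hv' ((List.mem_append.1 hv2).elim (h1 v) (h2 v))

lemma lower {S : Finset W} (hS : ∀ v, Forced G S v) : 17 ≤ S.card := by
  have h1 : S.card = ∑ i : Fin 3, ∑ k : Fin 12, (if (i, k) ∈ S then 1 else 0) := by
    rw [← Fintype.sum_prod_type (f := fun v : W => if v ∈ S then 1 else 0)]
    simp
  have h2 : ∀ i j : Fin 3, i < j → ((i, 0) ∉ S ∧ ∃ e x y, ∀ v ∈ pc i e x y, v ∉ S) →
      ((j, 0) ∉ S ∧ ∃ e x y, ∀ v ∈ pc j e x y, v ∉ S) → False := by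
    rintro i j hij ⟨a1, e, x, y, a2⟩ ⟨a3, e', x', y', a4⟩
    obtain ⟨v, hv, hv'⟩ := hit hS (f3 i j hij e x y e' x' y')
    rcases List.mem_cons.1 hv with rfl | hv
    · exact a1 hv'
    rcases List.mem_cons.1 hv with rfl | hv
    · exact a3 hv'
    exact absurd hv' ((List.mem_append.1 hv).elim (a2 v) (a4 v))
  rw [h1, Fin.sum_univ_three]
  obtain ⟨a0, b0 | b0⟩ := branch hS 0 <;> obtain ⟨a1, b1 | b1⟩ := branch hS 1 <;>
    obtain ⟨a2, b2 | b2⟩ := branch hS 2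
  any_goals omega
  all_goals first
    | exact (h2 0 1 (by decide) b0 b1).elim
    | exact (h2 0 2 (by decide) b0 b2).elim
    | exact (h2 1 2 (by decide) b1 b2).elim

theorem result : ∃ (V : Type) (_ : Fintype V) (_ : DecidableEq V) (H : SimpleGraph V)
    (_ : DecidableRel H.Adj), H.Connected ∧ H.IsRegularOfDegree 3 ∧ H.maxDegree ≤ 3 ∧
      IsEmpty (H ≃g (⊤ : SimpleGraph (Fin 4))) ∧ H.indepNum + 2 ≤ zf H := by
  refine ⟨W, inferInstance, inferInstance, G, inferInstance, conn, reg,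
    G.maxDegree_le_of_forall_degree_le 3 fun v => (reg v).le, ⟨fun e => ?_⟩, ?_⟩
  · simpa using Fintype.card_congr e.toEquiv
  · have h : 17 ≤ zf G := by
      refine le_csInf ⟨_, univ, rfl, fun v => Forced.base v (mem_univ v)⟩ ?_
      rintro _ ⟨S, rfl, hS⟩
      exact lower hS
    have := alpha
    omega

end Pool.Agent.Results.MP_48c3bc_co.Cubic
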